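import Mathlib

set_option autoImplicit false
set_option linter.unreachableTactic false
set_option linter.unnecessarySeqFocus false
set_option linter.unusedTactic false

namespace TH648.BCH

section ring
variable {K : Type*} [CommRing K] (a : K) (h : a^9 = a^4 + 1) (h2 : (2:K) = 0)
include h h2

theorem chain1 : a^1 + a^2 + a^4 + a^8 + a^16 + a^32 + a^64 + a^128 + a^256 = 0 ∧ a^512 = a^1 := by
  have h1_1 : a^2 = a^2 := by
    have e1 : a^2 = (a^1)^2 := by ring
    rw [e1] <;> linear_combination (0) * h + (0) * h2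
  have h1_2 : a^4 = a^4 := by
    have e1 : a^4 = (a^2)^2 := by ring
    rw [e1, h1_1] <;> linear_combination (0) * h + (0) * h2
  have h1_3 : a^8 = a^8 := by
    have e1 : a^8 = (a^4)^2 := by ring
    rw [e1, h1_2] <;> linear_combination (0) * h + (0) * h2
  have h1_4 : a^16 = a^2 + a^6 + a^7 := by
    have e1 : a^16 = (a^8)^2 := by ring
    rw [e1, h1_3] <;> linear_combination (a^2 + a^7) * h + (0) * h2
  have h1_5 : a^32 = 1 + a^3 + a^5 + a^7 := by
    have e1 : a^32 = (a^16)^2 := by ring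
    rw [e1, h1_4] <;> linear_combination (3 + a^3 + 2*a^4 + a^5) * h + (1 + 3*a^4 + 2*a^8) * h2
  have h1_6 : a^64 = a + a^4 + a^6 := by
    have e1 : a^64 = (a^32)^2 := by ring
    rw [e1, h1_5] <;> linear_combination (1 + 3*a + 2*a^3 + a^5) * h + (1 + a + 2*a^3 + 3*a^5 + 2*a^7 + a^8) * h2
  have h1_7 : a^128 = a^2 + a^3 + a^7 + a^8 := by
    have e1 : a^128 = (a^64)^2 := by ring
    rw [e1, h1_6] <;> linear_combination (2*a + a^3) * h + (a + 2*a^5 + a^7) * h2
  have h1_8 : a^256 = 1 + a^2 + a^5 + a^7 := by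
    have e1 : a^256 = (a^128)^2 := by ring
    rw [e1, h1_7] <;> linear_combination (3 + 6*a + 3*a^2 + a^5 + 2*a^6 + a^7) * h + (1 + 3*a + a^2 + 2*a^4 + 4*a^5 + 3*a^6) * h2
  have h1_9 : a^512 = a := by
    have e1 : a^512 = (a^256)^2 := by ring
    rw [e1, h1_8] <;> linear_combination (3 + a + 2*a^3 + a^5) * h + (2 + a^2 + a^3 + 2*a^4 + 2*a^5 + 3*a^7) * h2
  refine ⟨?_, by rw [h1_9]; ring⟩
  rw [h1_1, h1_2, h1_3, h1_4, h1_5, h1_6, h1_7, h1_8]
  linear_combination (1 + a + 2*a^2 + a^3 + a^4 + a^5 + a^6 + 2*a^7 + a^8) * h2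

theorem chain3 : a^3 + a^6 + a^12 + a^24 + a^48 + a^96 + a^192 + a^384 + a^768 = 0 ∧ a^1536 = a^3 := by
  have h3_1 : a^6 = a^6 := by
    have e1 : a^6 = (a^3)^2 := by ring
    rw [e1] <;> linear_combination (0) * h + (0) * h2
  have h3_2 : a^12 = a^3 + a^7 := by
    have e1 : a^12 = (a^6)^2 := by ring
    rw [e1, h3_1] <;> linear_combination (a^3) * h + (0) * h2
  have h3_3 : a^24 = 1 + a^4 + a^5 + a^6 := by
    have e1 : a^24 = (a^12)^2 := by ring
    rw [e1, h3_2] <;> linear_combination (1 + 2*a + a^5) * h + (a + a^5) * h2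
  have h3_4 : a^48 = 1 + a + a^3 + a^5 + a^7 + a^8 := by
    have e1 : a^48 = (a^24)^2 := by ring
    rw [e1, h3_3] <;> linear_combination (2 + 3*a + 2*a^2 + a^3) * h + (1 + a + a^2 + 2*a^4 + 2*a^5 + 2*a^6) * h2
  have h3_5 : a^96 = a + a^4 + a^7 := by
    have e1 : a^96 = (a^48)^2 := by ring
    rw [e1, h3_4] <;> linear_combination (3 + 5*a + 3*a^2 + 2*a^3 + 2*a^4 + a^5 + 2*a^6 + a^7) * h + (2 + 3*a + 2*a^2 + 2*a^3 + 3*a^4 + 4*a^5 + 4*a^6 + 2*a^7 + 4*a^8) * h2
  have h3_6 : a^192 = 1 + a^2 + a^4 + a^5 + a^8 := by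
    have e1 : a^192 = (a^96)^2 := by ring
    rw [e1, h3_5] <;> linear_combination (1 + 2*a^2 + a^5) * h + (a^2 + a^5 + a^6 + a^8) * h2
  have h3_7 : a^384 = 1 + a + a^2 + a^4 + a^5 + a^6 + a^7 + a^8 := by
    have e1 : a^384 = (a^192)^2 := by ring
    rw [e1, h3_6] <;> linear_combination (2 + 3*a + a^2 + 2*a^3 + 2*a^4 + a^7) * h + (1 + a + a^2 + a^3 + 3*a^4 + 2*a^5 + a^6 + 2*a^7 + 2*a^8) * h2
  have h3_8 : a^768 = a + a^3 + a^6 + a^8 := by
    have e1 : a^768 = (a^384)^2 := by ring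
    rw [e1, h3_7] <;> linear_combination (9 + 7*a + 5*a^2 + 5*a^3 + 4*a^4 + 3*a^5 + 2*a^6 + a^7) * h + (5 + 4*a + 4*a^2 + 3*a^3 + 8*a^4 + 7*a^5 + 6*a^6 + 6*a^7 + 5*a^8) * h2
  have h3_9 : a^1536 = a^3 := by
    have e1 : a^1536 = (a^768)^2 := by ring
    rw [e1, h3_8] <;> linear_combination (6 + 3*a^2 + a^3 + 2*a^5 + a^7) * h + (3 + 2*a^2 + 4*a^4 + a^5 + 2*a^6 + 2*a^7) * h2
  refine ⟨?_, by rw [h3_9]⟩
  rw [h3_1, h3_2, h3_3, h3_4, h3_5, h3_6, h3_7, h3_8]
  linear_combination (2 + 2*a + a^2 + 2*a^3 + 2*a^4 + 2*a^5 + 2*a^6 + 2*a^7 + 2*a^8) * h2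

theorem chain5 : a^5 + a^10 + a^20 + a^40 + a^80 + a^160 + a^320 + a^640 + a^1280 = 1 ∧ a^2560 = a^5 := by
  have h5_1 : a^10 = a + a^5 := by
    have e1 : a^10 = (a^5)^2 := by ring
    rw [e1] <;> linear_combination (a) * h + (0) * h2
  have h5_2 : a^20 = a + a^2 + a^5 := by
    have e1 : a^20 = (a^10)^2 := by ring
    rw [e1, h5_1] <;> linear_combination (a) * h + (a^6) * h2
  have h5_3 : a^40 = a + a^2 + a^4 + a^5 := by
    have e1 : a^40 = (a^20)^2 := by ring
    rw [e1, h5_2] <;> linear_combination (a) * h + (a^3 + a^6 + a^7) * h2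
  have h5_4 : a^80 = a + a^2 + a^4 + a^5 + a^8 := by
    have e1 : a^80 = (a^40)^2 := by ring
    rw [e1, h5_3] <;> linear_combination (2 + a) * h + (1 + a^3 + a^4 + a^5 + 2*a^6 + a^7) * h2
  have h5_5 : a^160 = a + a^4 + a^5 + a^6 + a^7 + a^8 := by
    have e1 : a^160 = (a^80)^2 := by ring
    rw [e1, h5_4] <;> linear_combination (4 + 3*a + a^2 + 2*a^3 + 2*a^4 + a^7) * h + (2 + a + a^2 + 2*a^3 + 3*a^4 + 2*a^5 + 2*a^6 + 2*a^7 + a^8) * h2
  have h5_6 : a^320 = 1 + a + a^3 + a^4 + a^6 + a^8 := by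
    have e1 : a^320 = (a^160)^2 := by ring
    rw [e1, h5_5] <;> linear_combination (7 + 5*a + 5*a^2 + 5*a^3 + 4*a^4 + 3*a^5 + 2*a^6 + a^7) * h + (3 + 2*a + 3*a^2 + 2*a^3 + 5*a^4 + 5*a^5 + 4*a^6 + 4*a^7 + 3*a^8) * h2
  have h5_7 : a^640 = 1 + a^3 + a^8 := by
    have e1 : a^640 = (a^320)^2 := by ring
    rw [e1, h5_6] <;> linear_combination (6 + 2*a + 3*a^2 + 3*a^3 + 2*a^5 + a^7) * h + (3 + 2*a + 2*a^2 + 2*a^3 + 5*a^4 + 3*a^5 + 3*a^6 + 4*a^7 + a^8) * h2
  have h5_8 : a^1280 = 1 + a^2 + a^7 := by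
    have e1 : a^1280 = (a^640)^2 := by ring
    rw [e1, h5_7] <;> linear_combination (3*a^2 + a^7) * h + (a^2 + a^3 + 2*a^6 + a^8) * h2
  have h5_9 : a^2560 = a^5 := by
    have e1 : a^2560 = (a^1280)^2 := by ring
    rw [e1, h5_8] <;> linear_combination (3 + a^5) * h + (2 + a^2 + 2*a^4 + a^7) * h2
  refine ⟨?_, by rw [h5_9]⟩
  rw [h5_1, h5_2, h5_3, h5_4, h5_5, h5_6, h5_7, h5_8]
  linear_combination (1 + 3*a + 2*a^2 + a^3 + 2*a^4 + 3*a^5 + a^6 + a^7 + 2*a^8) * h2

theorem chain7 : a^7 + a^14 + a^28 + a^56 + a^112 + a^224 + a^448 + a^896 + a^1792 = 0 ∧ a^3584 = a^7 := by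
  have h7_1 : a^14 = 1 + a^4 + a^5 := by
    have e1 : a^14 = (a^7)^2 := by ring
    rw [e1] <;> linear_combination (1 + a^5) * h + (0) * h2
  have h7_2 : a^28 = 1 + a + a^5 + a^8 := by
    have e1 : a^28 = (a^14)^2 := by ring
    rw [e1, h7_1] <;> linear_combination (2 + a) * h + (1 + 2*a^4 + a^5) * h2
  have h7_3 : a^56 = 1 + a + a^5 + a^6 + a^7 := by
    have e1 : a^56 = (a^28)^2 := by ring
    rw [e1, h7_2] <;> linear_combination (2 + a + a^2 + 2*a^4 + a^7) * h + (1 + a + a^2 + 2*a^4 + a^5 + a^6 + 2*a^8) * h2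
  have h7_4 : a^112 = a + a^2 + a^3 + a^4 + a^7 := by
    have e1 : a^112 = (a^56)^2 := by ring
    rw [e1, h7_3] <;> linear_combination (1 + a + 2*a^2 + 3*a^3 + 2*a^4 + a^5) * h + (1 + a + a^2 + a^3 + a^4 + 2*a^5 + 3*a^6 + 3*a^7 + 2*a^8) * h2
  have h7_5 : a^224 = 1 + a^2 + a^5 + a^6 + a^8 := by
    have e1 : a^224 = (a^112)^2 := by ring
    rw [e1, h7_4] <;> linear_combination (3 + 2*a + 2*a^2 + a^5) * h + (1 + a + a^2 + a^3 + 3*a^4 + 3*a^5 + 2*a^6 + a^7 + a^8) * h2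
  have h7_6 : a^448 = 1 + a + a^2 + a^3 + a^4 + a^5 + a^6 := by
    have e1 : a^448 = (a^224)^2 := by ring
    rw [e1, h7_5] <;> linear_combination (2 + 3*a + 3*a^2 + a^3 + 2*a^4 + 2*a^5 + a^7) * h + (1 + a + 2*a^2 + 2*a^4 + 3*a^5 + 2*a^6 + 2*a^7 + 3*a^8) * h2
  have h7_7 : a^896 = 1 + a + a^2 + a^3 + a^4 + a^5 + a^6 + a^7 + a^8 := by
    have e1 : a^896 = (a^448)^2 := by ring
    rw [e1, h7_6] <;> linear_combination (4 + 3*a + 2*a^2 + a^3) * h + (2 + 2*a + 2*a^2 + 2*a^3 + 4*a^4 + 4*a^5 + 4*a^6 + 3*a^7 + 2*a^8) * h2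
  have h7_8 : a^1792 = a + a^3 + a^8 := by
    have e1 : a^1792 = (a^896)^2 := by ring
    rw [e1, h7_7] <;> linear_combination (11 + 9*a + 7*a^2 + 5*a^3 + 4*a^4 + 3*a^5 + 2*a^6 + a^7) * h + (6 + 5*a + 5*a^2 + 4*a^3 + 10*a^4 + 9*a^5 + 8*a^6 + 7*a^7 + 6*a^8) * h2
  have h7_9 : a^3584 = a^7 := by
    have e1 : a^3584 = (a^1792)^2 := by ring
    rw [e1, h7_8] <;> linear_combination (2 + 3*a^2 + a^7) * h + (1 + 2*a^2 + 2*a^4 + 2*a^6) * h2
  refine ⟨?_, by rw [h7_9]⟩
  rw [h7_1, h7_2, h7_3, h7_4, h7_5, h7_6, h7_7, h7_8]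
  linear_combination (3 + 3*a + 2*a^2 + 2*a^3 + 2*a^4 + 3*a^5 + 2*a^6 + 2*a^7 + 2*a^8) * h2

end ring

open Polynomial in
/-- The Galois field with `2^9` elements contains a root of `X^9 + X^4 + 1`. -/
theorem exists_root : ∃ α : GaloisField 2 9, α ^ 9 = α ^ 4 + 1 := by
  let K := GaloisField 2 9
  have hcard : Nat.card K = 2 ^ 9 := GaloisField.card 2 9 (by norm_num)
  let L := AlgebraicClosure K
  have h2L : (2 : L) = 0 := by
    have := CharP.cast_eq_zero L 2
    exact_mod_cast this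
  let p : L[X] := X ^ 9 + X ^ 4 + 1
  have hpd : p.natDegree = 9 := by
    change (X ^ 9 + X ^ 4 + 1 : L[X]).natDegree = 9
    compute_degree!
  obtain ⟨θ, hθ⟩ := IsAlgClosed.exists_root p (by
    intro h
    have : p.natDegree = 0 := natDegree_eq_of_degree_eq_some h
    omega)
  have hθ' : θ ^ 9 + θ ^ 4 + 1 = 0 := by
    simpa [p, IsRoot.def] using hθ
  have h9 : θ ^ 9 = θ ^ 4 + 1 := by
    linear_combination hθ' - (θ ^ 4 + 1) * h2L
  have h512 : θ ^ 512 = θ := by
    have := (chain1 θ h9 h2L).2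
    simpa using this
  have hs : (X ^ (Nat.card K) - X : K[X]).Splits := Polynomial.splits_X_pow_nat_card_sub_X
  have h0 : (X ^ (Nat.card K) - X : K[X]) ≠ 0 := by
    rw [hcard]
    exact FiniteField.X_pow_card_pow_sub_X_ne_zero K (by norm_num) (by norm_num)
  obtain ⟨α, hα⟩ := hs.mem_range_of_isRoot h0 (i := algebraMap K L) (x := θ) (by
    rw [hcard, IsRoot.def]
    simp [h512])
  refine ⟨α, (algebraMap K L).injective ?_⟩
  rw [map_pow, map_add, map_pow, map_one, hα, h9]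


/-- bits of the trace sequence `Tr(α^n)`, `n < 1022` -/
def S : ℕ := 93802320902772791358192261245891896441190510963538123252927357231986978477764537560237629522037325338703169351094025306079788481832110850385407688915009043259246710245251447534712202487038766089740711934024816571646503787550918786069369033984030156503019208787535278395160391369606350553961126236096595489

theorem S_rec : ∀ n < 1013, S.testBit (n + 9) = (S.testBit (n + 4) ^^ S.testBit n) := by
  decide +kernel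

/-- trace form on the field -/
noncomputable def tr : GaloisField 2 9 →ₗ[ZMod 2] ZMod 2 := Algebra.trace (ZMod 2) (GaloisField 2 9)

theorem tr_eq (x : GaloisField 2 9) :
    algebraMap (ZMod 2) (GaloisField 2 9) (tr x) =
      x ^ 1 + x ^ 2 + x ^ 4 + x ^ 8 + x ^ 16 + x ^ 32 + x ^ 64 + x ^ 128 + x ^ 256 := by
  have := FiniteField.algebraMap_trace_eq_sum_pow (ZMod 2) (GaloisField 2 9) x
  rw [GaloisField.finrank 2 (by norm_num), Nat.card_zmod] at this
  rw [tr, this]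
  simp [Finset.sum_range_succ]

theorem h2K : (2 : GaloisField 2 9) = 0 := by
  have := CharP.cast_eq_zero (GaloisField 2 9) 2
  exact_mod_cast this

theorem pow512 (x : GaloisField 2 9) : x ^ 512 = x := by
  have : Fintype (GaloisField 2 9) := Fintype.ofFinite _
  have h := FiniteField.pow_card (K := GaloisField 2 9) x
  rw [← Nat.card_eq_fintype_card, GaloisField.card 2 9 (by norm_num)] at h
  simpa using h

theorem tr_sq (x : GaloisField 2 9) : tr (x ^ 2) = tr x := by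
  apply (algebraMap (ZMod 2) (GaloisField 2 9)).injective
  rw [tr_eq, tr_eq]
  linear_combination pow512 x


section alpha
variable {α : GaloisField 2 9} (h : α ^ 9 = α ^ 4 + 1)
include h

theorem tr0 : tr ((1 : GaloisField 2 9)) = 1 := by
  apply (algebraMap (ZMod 2) (GaloisField 2 9)).injective
  rw [tr_eq, map_one]
  linear_combination 4 * h2K

theorem tr1 : tr α = 0 := by
  apply (algebraMap (ZMod 2) (GaloisField 2 9)).injective
  rw [tr_eq, map_zero]
  exact (chain1 α h h2K).1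

theorem tr3 : tr (α ^ 3) = 0 := by
  apply (algebraMap (ZMod 2) (GaloisField 2 9)).injective
  rw [tr_eq, map_zero]
  linear_combination (chain3 α h h2K).1

theorem tr5 : tr (α ^ 5) = 1 := by
  apply (algebraMap (ZMod 2) (GaloisField 2 9)).injective
  rw [tr_eq, map_one]
  linear_combination (chain5 α h h2K).1

theorem tr7 : tr (α ^ 7) = 0 := by
  apply (algebraMap (ZMod 2) (GaloisField 2 9)).injective
  rw [tr_eq, map_zero]
  linear_combination (chain7 α h h2K).1

theorem tr_seq (n : ℕ) : n < 1022 → tr (α ^ n) = if S.testBit n then 1 else 0 := by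
  induction n using Nat.strong_induction_on with
  | _ n ih =>
    intro hn
    by_cases h9 : n < 9
    · have e2 : tr (α ^ 2) = 0 := by rw [tr_sq, tr1 h]
      have e4 : tr (α ^ 4) = 0 := by
        rw [show α ^ 4 = (α ^ 2) ^ 2 by ring, tr_sq, e2]
      have e8 : tr (α ^ 8) = 0 := by
        rw [show α ^ 8 = (α ^ 4) ^ 2 by ring, tr_sq, e4]
      have e6 : tr (α ^ 6) = 0 := by
        rw [show α ^ 6 = (α ^ 3) ^ 2 by ring, tr_sq, tr3 h]
      interval_cases n
      · rw [pow_zero, tr0 h]; decide +kernel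
      · rw [pow_one, tr1 h]; decide +kernel
      · rw [e2]; decide +kernel
      · rw [tr3 h]; decide +kernel
      · rw [e4]; decide +kernel
      · rw [tr5 h]; decide +kernel
      · rw [e6]; decide +kernel
      · rw [tr7 h]; decide +kernel
      · rw [e8]; decide +kernel
    · obtain ⟨k, rfl⟩ : ∃ k, n = k + 9 := ⟨n - 9, by omega⟩
      have e : α ^ (k + 9) = α ^ (k + 4) + α ^ k := by
        rw [pow_add, h]; ring
      rw [e, map_add, ih (k + 4) (by omega) (by omega), ih k (by omega) (by omega),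
        S_rec k (by omega)]
      cases S.testBit (k + 4) <;> cases S.testBit k <;> decide

theorem ne_zero : α ≠ 0 := by
  rintro rfl
  norm_num at h

theorem pow511 : α ^ 511 = 1 := by
  have h1 := pow512 α
  have h0 := ne_zero h
  have : α * (α ^ 511 - 1) = 0 := by linear_combination h1
  rcases mul_eq_zero.mp this with h2 | h2
  · exact absurd h2 h0
  · linear_combination h2

theorem prim : IsPrimitiveRoot α (2 ^ 9 - 1) := by
  have ho : orderOf α = 511 := by
    apply orderOf_eq_of_pow_and_pow_div_prime (by norm_num) (pow511 h)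
    intro p hp hd hc
    have : p = 7 ∨ p = 73 := by
      have h1 : p ∣ 7 * 73 := by norm_num; exact hd
      rcases (Nat.Prime.dvd_mul hp).mp h1 with h2 | h2
      · left; exact (Nat.prime_dvd_prime_iff_eq hp (by norm_num)).mp h2
      · right; exact (Nat.prime_dvd_prime_iff_eq hp (by norm_num)).mp h2
    rcases this with rfl | rfl
    · norm_num at hc
      have e1 := tr_seq h 73 (by norm_num)
      have e2 := tr_seq h 0 (by norm_num)
      have e3 : α ^ 73 = α ^ 0 := by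
        rw [show α ^ 73 = α ^ 73 * α ^ 0 by ring, hc, one_mul]
      rw [e3, e2] at e1
      exact absurd e1 (by decide +kernel)
    · norm_num at hc
      have e1 := tr7 h
      rw [hc, tr0 h] at e1
      exact absurd e1 (by decide)
  have := IsPrimitiveRoot.orderOf α
  rw [ho] at this
  exact this

end alpha

end TH648.BCH
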